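import Pool.Agent.H37.Io3

set_option autoImplicit false

open Pool.Agent.H37.IoD

theorem Pool.Agent.Results.MP_65fbb9_lc.Equal.result :
    Comp (IOE fun n => 2 ^ n.factorial) = Comp (IOE fun n => 2 ^ 2 ^ n) :=
  comp_eq
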